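import Pool.Agent.H23.WowB

open Pool.Agent.H23.Wow

theorem Pool.Agent.Results.MP_e3442a_co.Counter.result :
    ∃ (n : ℕ) (G : SimpleGraph (Fin n)), G.Connected ∧
      (treeNum G : ℤ) < ⌈(∑ v, ((G.eccent v).toNat : ℝ)) / n +
        (1 / 3 : ℝ) * (Finset.univ.sup (locInd G) : ℕ)⌉ := by
  refine ⟨25, B.G, B.conn, ?_⟩
  have h1 : (treeNum B.G : ℝ) ≤ 5 := by exact_mod_cast B.t_le
  have h2 : (92 : ℝ) ≤ ∑ v, ((B.G.eccent v).toNat : ℝ) := by exact_mod_cast B.sum_ge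
  have h3 : (4 : ℝ) ≤ (Finset.univ.sup (locInd B.G) : ℕ) := by exact_mod_cast B.l_ge
  rw [Int.lt_ceil]
  push_cast
  linarith
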